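import Mathlib

namespace Pool.Agent.Results.MP_a0fa86_nt.DimTwo

/-- integer points `z = (x, y)` of `ℤ² × ℤ²` -/
abbrev Pt := (Fin 2 → ℤ) × (Fin 2 → ℤ)

/-- an integer vector as a real vector (with the sup-norm) -/
def toReal (x : Fin 2 → ℤ) : Fin 2 → ℝ := fun i => (x i : ℝ)

/-- condition (G) -/
def CondG (Θ : Matrix (Fin 2) (Fin 2) ℝ) : Prop :=
  ∀ x : Fin 2 → ℤ, x ≠ 0 → ∀ y : Fin 2 → ℤ, Θ.mulVec (toReal x) ≠ toReal y

/-- `|x|_∞` -/
noncomputable def size (z : Pt) : ℝ := ‖toReal z.1‖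

/-- `|Θ x - y|_∞` -/
noncomputable def err (Θ : Matrix (Fin 2) (Fin 2) ℝ) (z : Pt) : ℝ :=
  ‖Θ.mulVec (toReal z.1) - toReal z.2‖

/-- best approximation vectors -/
def IsBest (Θ : Matrix (Fin 2) (Fin 2) ℝ) (z : Pt) : Prop :=
  z.1 ≠ 0 ∧ ∀ w : Pt, size w ≤ size z → err Θ w ≤ err Θ z → w = 0 ∨ w = z ∨ w = -z

/-- `z 0, z 1, …` lists the best approximation vectors, one of each pair `±z`, by increasing
`|x|_∞` -/
def IsEnum (Θ : Matrix (Fin 2) (Fin 2) ℝ) (z : ℕ → Pt) : Prop :=
  (∀ ν, IsBest Θ (z ν)) ∧ StrictMono (fun ν => size (z ν)) ∧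
    ∀ w, IsBest Θ w → ∃ ν, w = z ν ∨ w = -z ν

/-- `z` as a vector of `ℝ⁴` -/
def vec (z : Pt) : Fin 4 → ℝ := ![z.1 0, z.1 1, z.2 0, z.2 1]

/-- `d(ν₀)`, the dimension of the span of the tail -/
noncomputable def d (z : ℕ → Pt) (ν₀ : ℕ) : ℕ :=
  Module.finrank ℝ (Submodule.span ℝ {v | ∃ ν, ν₀ ≤ ν ∧ v = vec (z ν)})

noncomputable def s : ℝ := Real.sqrt 26

noncomputable def T : Matrix (Fin 2) (Fin 2) ℝ := !![2 + s, (2 + s) ^ 2; 1, 2 + s]

theorem s_sq : s ^ 2 = 26 := Real.sq_sqrt (by norm_num)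

theorem s_gt : 5 < s := by
  have := s_sq
  have h0 : 0 ≤ s := Real.sqrt_nonneg _
  nlinarith

theorem s_irr : Irrational s := by
  have : Irrational (Real.sqrt (26 : ℕ)) := by
    rw [irrational_sqrt_natCast_iff]
    rintro ⟨r, hr⟩
    have h1 : r < 6 := by nlinarith
    interval_cases r <;> omega
  simpa [s] using this

theorem norm2 (v : Fin 2 → ℝ) : ‖v‖ = max |v 0| |v 1| := by
  apply le_antisymm
  · refine (pi_norm_le_iff_of_nonneg (le_max_of_le_left (abs_nonneg _))).mpr ?_
    rw [Fin.forall_fin_two]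
    exact ⟨le_max_left _ _, le_max_right _ _⟩
  · exact max_le (norm_le_pi_norm v 0) (norm_le_pi_norm v 1)

theorem size_eq (z : Pt) : size z = max |(z.1 0 : ℝ)| |(z.1 1 : ℝ)| := norm2 _

theorem err_eq (z : Pt) : err T z =
    max |(2 + s) * z.1 0 + (2 + s) ^ 2 * z.1 1 - z.2 0| |z.1 0 + (2 + s) * z.1 1 - z.2 1| := by
  rw [err, norm2]
  simp [T, toReal, dotProduct, Fin.sum_univ_two]

theorem err_neg (z : Pt) : err T (-z) = err T z := by
  rw [err_eq, err_eq]
  congr 1 <;> rw [← abs_neg] <;> congr 1 <;> simp <;> ring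

theorem size_neg (z : Pt) : size (-z) = size z := by
  rw [size_eq, size_eq]; simp

theorem best_shape (z : Pt) (h : IsBest T z) : z.1 1 = 0 ∧ z.2 1 = z.1 0 ∧ z.1 0 ≠ 0 := by
  obtain ⟨hx, hb⟩ := h
  have h1 : z.1 1 = 0 := by
    by_contra hne
    have := hb (![z.1 1, 0], ![z.2 1 - z.1 0, z.1 1]) (by
      rw [size_eq, size_eq]; simp) (by
      rw [err_eq, err_eq]
      refine max_le (le_max_of_le_right (le_of_eq ?_)) (le_max_of_le_left ?_)
      · congr 1; simp; ring
      · simp)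
    rcases this with h | h | h
    · have := congrFun (congrArg Prod.fst h) 0
      simp at this; exact hne this
    · have := congrFun (congrArg Prod.fst h) 1
      simp at this; exact hne this.symm
    · have := congrFun (congrArg Prod.fst h) 1
      simp at this; exact hne this
  have h0 : z.1 0 ≠ 0 := by
    intro h0
    apply hx
    funext i
    fin_cases i
    · exact h0
    · exact h1
  refine ⟨h1, ?_, h0⟩
  by_contra hne
  have h2 : (1 : ℝ) ≤ |(z.1 0 : ℝ) - z.2 1| := by
    have : 1 ≤ |z.1 0 - z.2 1| := Int.one_le_abs (by omega)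
    exact_mod_cast this
  have := hb (0, ![0, 1]) (by rw [size_eq, size_eq]; simp) (by
    rw [err_eq, err_eq]
    refine le_max_of_le_right ?_
    simpa [h1] using h2)
  rcases this with h | h | h
  · have := congrFun (congrArg Prod.snd h) 1
    simp at this
  · exact hx (congrArg Prod.fst h).symm
  · have := congrFun (congrArg Prod.fst h) 0
    simp at this; exact h0 this

theorem lemA (P Q : ℤ) (hP : 0 < P) (hQ : 0 < Q) (h : P ^ 2 - 26 * Q ^ 2 = 1) (j l : ℤ)
    (hj : |(j : ℝ)| ≤ 5 * Q) (hl : |j * s - l| ≤ P - Q * s) :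
    (j = 0 ∧ l = 0) ∨ (j = Q ∧ l = P) ∨ (j = -Q ∧ l = -P) := by
  have hs := s_sq
  have h5 := s_gt
  have hP' : (0 : ℝ) < P := by exact_mod_cast hP
  have hQ' : (1 : ℝ) ≤ Q := by exact_mod_cast hQ
  have hR : (P : ℝ) ^ 2 - 26 * Q ^ 2 = 1 := by exact_mod_cast h
  have hu : (0 : ℝ) < P + Q * s := by positivity
  have hprod : ((P : ℝ) - Q * s) * (P + Q * s) = 1 := by linear_combination hR - (Q : ℝ) ^ 2 * hs
  have hz : (0 : ℝ) < P - Q * s := by
    by_contra hc
    have := mul_nonpos_of_nonpos_of_nonneg (not_lt.mp hc) hu.le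
    linarith
  have hz1 : (P : ℝ) - Q * s ≤ 1 := by nlinarith
  set A : ℤ := l * P - 26 * j * Q with hA
  set B : ℤ := l * Q - j * P with hB
  have e1 : (A : ℝ) + B * s = (l - j * s) * (P + Q * s) := by
    rw [hA, hB]; push_cast; linear_combination (j * Q : ℝ) * hs
  have e2 : (A : ℝ) - B * s = (l + j * s) * (P - Q * s) := by
    rw [hA, hB]; push_cast; linear_combination (j * Q : ℝ) * hs
  have b1 : |(A : ℝ) + B * s| ≤ 1 := by
    rw [e1, abs_mul, abs_sub_comm, abs_of_pos hu, ← hprod]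
    exact mul_le_mul_of_nonneg_right hl hu.le
  have b2 : |(A : ℝ) - B * s| ≤ 6 := by
    rw [e2, abs_mul, abs_of_pos hz]
    have t1 : |(l : ℝ) + j * s| ≤ 10 * Q * s + (P - Q * s) := by
      have : (l : ℝ) + j * s = 2 * (j * s) - (j * s - l) := by ring
      rw [this]
      refine (abs_sub _ _).trans ?_
      rw [abs_mul, abs_mul, abs_of_pos (by linarith : (0 : ℝ) < s), abs_two]
      nlinarith
    have t2 := mul_le_mul_of_nonneg_right t1 hz.le
    nlinarith
  have hB0 : B = 0 := by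
    by_contra hne
    have t1 : (1 : ℝ) ≤ |(B : ℝ)| := by
      have : 1 ≤ |B| := Int.one_le_abs hne
      exact_mod_cast this
    have t2 : 2 * ((B : ℝ) * s) = (A + B * s) - (A - B * s) := by ring
    have t3 := abs_sub ((A : ℝ) + B * s) (A - B * s)
    rw [← t2, abs_mul, abs_mul, abs_two, abs_of_pos (by linarith : (0 : ℝ) < s)] at t3
    nlinarith
  have hA1 : |A| ≤ 1 := by
    rw [hB0] at b1
    have : |(A : ℝ)| ≤ 1 := by simpa using b1
    exact_mod_cast this
  have ej : j = A * Q - B * P := by rw [hA, hB]; linear_combination (-j) * h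
  have el : l = A * P - 26 * B * Q := by rw [hA, hB]; linear_combination (-l) * h
  rw [hB0] at ej el
  rw [abs_le] at hA1
  obtain ⟨t1, t2⟩ := hA1
  interval_cases A
  · right; right; constructor <;> linarith
  · left; constructor <;> linarith
  · right; left; constructor <;> linarith

theorem best_pell (P Q : ℤ) (hP : 0 < P) (hQ : 0 < Q) (h : P ^ 2 - 26 * Q ^ 2 = 1) :
    IsBest T (![Q, 0], ![P + 2 * Q, Q]) := by
  have hs := s_sq
  have h5 := s_gt
  have hP' : (0 : ℝ) < P := by exact_mod_cast hP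
  have hQ' : (1 : ℝ) ≤ Q := by exact_mod_cast hQ
  have hR : (P : ℝ) ^ 2 - 26 * Q ^ 2 = 1 := by exact_mod_cast h
  have hu : (0 : ℝ) < P + Q * s := by positivity
  have hprod : ((P : ℝ) - Q * s) * (P + Q * s) = 1 := by linear_combination hR - (Q : ℝ) ^ 2 * hs
  have hz : (0 : ℝ) < P - Q * s := by
    by_contra hc
    have := mul_nonpos_of_nonpos_of_nonneg (not_lt.mp hc) hu.le
    linarith
  refine ⟨fun h0 => ?_, ?_⟩
  · have := congrFun h0 0
    simp at this; omega
  rintro ⟨x, y⟩ h1 h2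
  have e1 : size (![Q, 0], ![P + 2 * Q, Q]) = Q := by
    rw [size_eq]; simp [abs_of_pos (by linarith : (0 : ℝ) < Q)]; linarith
  have e2 : err T (![Q, 0], ![P + 2 * Q, Q]) = P - Q * s := by
    rw [err_eq]
    have : (2 + s) * (Q : ℝ) - (P + 2 * Q) = -(P - Q * s) := by ring
    simp [this, abs_sub_comm, abs_of_pos hz]
    linarith
  rw [e1, size_eq, max_le_iff] at h1
  rw [e2, err_eq, max_le_iff] at h2
  simp only at h1 h2
  obtain ⟨a0, a1⟩ := h1
  obtain ⟨c0, c1⟩ := h2
  have k1 := lemA P Q hP hQ h (x 1) (y 1 - x 0 - 2 * x 1) (by linarith)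
    (by refine le_trans (le_of_eq ?_) c1; congr 1; push_cast; ring)
  have k0 := lemA P Q hP hQ h (x 0 + 4 * x 1) (y 0 - 2 * (x 0 + 4 * x 1) - 22 * x 1)
    (by
      push_cast
      refine (abs_add_le _ _).trans ?_
      rw [abs_mul, abs_of_pos (by norm_num : (0 : ℝ) < 4)]
      linarith)
    (by refine le_trans (le_of_eq ?_) c0; congr 1; push_cast; linear_combination (-(x 1 : ℝ)) * hs)
  have a0' : |x 0| ≤ Q := by exact_mod_cast a0
  rw [abs_le] at a0'
  have hx1 : x 1 = 0 ∧ y 1 = x 0 := by omega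
  have fin : ∀ (a b : ℤ), x 0 = a → y 0 = b → (x, y) = (![a, 0], ![b, a]) := by
    intro a b ha hb
    refine Prod.ext (funext (fun i => ?_)) (funext (fun i => ?_))
    · fin_cases i
      · exact ha
      · exact hx1.1
    · fin_cases i
      · exact hb
      · exact hx1.2.trans ha
  rcases k0 with k | k | k
  · left
    rw [fin 0 0 (by omega) (by omega)]
    refine Prod.ext (funext (fun i => ?_)) (funext (fun i => ?_)) <;> fin_cases i <;> rfl
  · right; left
    exact fin _ _ (by omega) (by omega)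
  · right; right
    rw [fin (-Q) (-(P + 2 * Q)) (by omega) (by omega)]
    refine Prod.ext (funext (fun i => ?_)) (funext (fun i => ?_)) <;> fin_cases i <;> simp

theorem pell (n : ℕ) : ∃ P Q : ℤ, 0 < P ∧ 0 < Q ∧ P ^ 2 - 26 * Q ^ 2 = 1 ∧ (n : ℤ) ≤ Q := by
  induction n with
  | zero => exact ⟨51, 10, by norm_num, by norm_num, by norm_num, by norm_num⟩
  | succ n ih =>
    obtain ⟨P, Q, hP, hQ, h, hn⟩ := ih
    exact ⟨51 * P + 260 * Q, 10 * P + 51 * Q, by omega, by omega, by linear_combination h,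
      by push_cast; omega⟩

theorem exists_enum : ∃ z, IsEnum T z := by
  let p : ℕ → Prop := fun M => ∃ w, IsBest T w ∧ size w = M
  have hnat : ∀ w : Pt, ∃ M : ℕ, size w = M := by
    intro w
    refine ⟨(max |w.1 0| |w.1 1|).toNat, ?_⟩
    have h1 : ((max |w.1 0| |w.1 1|).toNat : ℤ) = max |w.1 0| |w.1 1| :=
      Int.toNat_of_nonneg (le_max_of_le_left (abs_nonneg _))
    rw [size_eq, ← Int.cast_natCast, h1]
    push_cast
    rfl
  have hinf : {M | p M}.Infinite := by
    refine Set.infinite_of_not_bddAbove ?_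
    rintro ⟨b, hb⟩
    obtain ⟨P, Q, hP, hQ, h, hn⟩ := pell (b + 1)
    have h1 := best_pell P Q hP hQ h
    obtain ⟨M, hM⟩ := hnat (![Q, 0], ![P + 2 * Q, Q])
    have h2 : M ≤ b := hb ⟨_, h1, hM⟩
    have h3 : (Q : ℝ) ≤ M := by
      rw [← hM, size_eq]
      exact le_max_of_le_left (by simpa using le_abs_self (Q : ℝ))
    have h4 : Q ≤ M := by exact_mod_cast h3
    omega
  choose z hz using fun ν => Nat.nth_mem_of_infinite hinf ν
  refine ⟨z, fun ν => (hz ν).1, fun a b hab => ?_, fun w hw => ?_⟩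
  · simp only [(hz a).2, (hz b).2]
    exact_mod_cast Nat.nth_strictMono hinf hab
  · obtain ⟨M, hM⟩ := hnat w
    obtain ⟨ν, hν⟩ : ∃ ν, Nat.nth p ν = M := by
      have : M ∈ Set.range (Nat.nth p) := by
        rw [Nat.range_nth_of_infinite hinf]; exact ⟨w, hw, hM⟩
      exact this
    have e : size w = size (z ν) := by rw [hM, (hz ν).2, hν]
    refine ⟨ν, ?_⟩
    rcases le_total (err T w) (err T (z ν)) with h | h
    · rcases (hz ν).1.2 w e.le h with h | h | h
      · exact absurd (congrArg Prod.fst h) hw.1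
      · exact Or.inl h
      · exact Or.inr h
    · rcases hw.2 (z ν) e.ge h with h | h | h
      · exact absurd (congrArg Prod.fst h) (hz ν).1.1
      · exact Or.inl h.symm
      · exact Or.inr (by rw [h, neg_neg])

theorem indep (z w : Pt) (hz : IsBest T z) (hw : IsBest T w) (h : size z < size w) :
    LinearIndependent ℝ ![vec z, vec w] := by
  obtain ⟨a1, a2, a3⟩ := best_shape z hz
  obtain ⟨b1, b2, b3⟩ := best_shape w hw
  have hdet : (z.1 0 : ℝ) * w.2 0 - w.1 0 * z.2 0 ≠ 0 := by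
    intro h0
    have s1 : size z = |(z.1 0 : ℝ)| := by rw [size_eq, a1]; simp
    have s2 : size w = |(w.1 0 : ℝ)| := by rw [size_eq, b1]; simp
    have r1 : err T z = |(2 + s) * z.1 0 - z.2 0| := by rw [err_eq, a1, a2]; simp
    have r2 : err T w = |(2 + s) * w.1 0 - w.2 0| := by rw [err_eq, b1, b2]; simp
    have e : size w * err T z = size z * err T w := by
      rw [s1, s2, r1, r2, ← abs_mul, ← abs_mul]
      congr 1
      linear_combination h0
    have hw0 : 0 < size w := lt_of_le_of_lt (norm_nonneg _) h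
    have hle : err T z ≤ err T w := by
      by_contra hc
      have hc := not_le.mp hc
      have t1 : size z * err T w ≤ size w * err T w :=
        mul_le_mul_of_nonneg_right h.le (norm_nonneg _)
      have t2 := mul_lt_mul_of_pos_left hc hw0
      linarith
    rcases hw.2 z h.le hle with t | t | t
    · exact hz.1 (congrArg Prod.fst t)
    · rw [t] at h; exact lt_irrefl _ h
    · rw [t, size_neg] at h; exact lt_irrefl _ h
  rw [LinearIndependent.pair_iff]
  intro a b hab
  have e0 := congrFun hab 0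
  have e2 := congrFun hab 2
  simp [vec] at e0 e2
  constructor
  · have : a * ((z.1 0 : ℝ) * w.2 0 - w.1 0 * z.2 0) = 0 := by
      linear_combination (w.2 0 : ℝ) * e0 - (w.1 0 : ℝ) * e2
    exact (mul_eq_zero.mp this).resolve_right hdet
  · have : b * ((z.1 0 : ℝ) * w.2 0 - w.1 0 * z.2 0) = 0 := by
      linear_combination (z.1 0 : ℝ) * e2 - (z.2 0 : ℝ) * e0
    exact (mul_eq_zero.mp this).resolve_right hdet

theorem result : ∃ Θ : Matrix (Fin 2) (Fin 2) ℝ, CondG Θ ∧ Θ.det = 0 ∧ (∃ z, IsEnum Θ z) ∧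
    ∀ z, IsEnum Θ z → ∀ ν₀, d z ν₀ = 2 := by
  refine ⟨T, fun x hx y h => ?_, by simp [T, Matrix.det_fin_two]; ring, exists_enum,
    fun z hz ν₀ => ?_⟩
  · have h0 := congrFun h 0
    have h1 := congrFun h 1
    simp [T, toReal, Matrix.mulVec, dotProduct, Fin.sum_univ_two] at h0 h1
    have key : ∀ a b : ℤ, (2 + s) * a = b → a = 0 := by
      intro a b hab
      by_contra ha
      have ha' : (a : ℝ) ≠ 0 := by exact_mod_cast ha
      refine s_irr ⟨(b : ℚ) / a - 2, ?_⟩
      push_cast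
      rw [← hab]; field_simp; ring
    have t1 : x 1 = 0 := key (x 1) (y 1 - x 0) (by push_cast; linarith)
    have t0 : x 0 = 0 := key (x 0) (y 0) (by rw [t1] at h0; simpa using h0)
    apply hx
    funext i
    fin_cases i
    · exact t0
    · exact t1
  · apply le_antisymm
    · let e : Fin 2 → (Fin 4 → ℝ) := ![![1, 0, 0, 1], ![0, 0, 1, 0]]
      have h1 : Submodule.span ℝ {v | ∃ ν, ν₀ ≤ ν ∧ v = vec (z ν)} ≤
          Submodule.span ℝ (Set.range e) := by
        rw [Submodule.span_le]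
        rintro v ⟨ν, _, rfl⟩
        obtain ⟨a1, a2, _⟩ := best_shape _ (hz.1 ν)
        have : vec (z ν) = ((z ν).1 0 : ℝ) • e 0 + ((z ν).2 0 : ℝ) • e 1 := by
          funext i
          fin_cases i <;> simp [vec, e, a1, a2]
        rw [this]
        exact Submodule.add_mem _
          (Submodule.smul_mem _ _ (Submodule.subset_span ⟨0, rfl⟩))
          (Submodule.smul_mem _ _ (Submodule.subset_span ⟨1, rfl⟩))
      refine (Submodule.finrank_mono h1).trans ?_
      have h2 := finrank_range_le_card (R := ℝ) e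
      rw [Fintype.card_fin] at h2
      exact h2
    · have hi := indep _ _ (hz.1 ν₀) (hz.1 (ν₀ + 1)) (hz.2.1 (Nat.lt_succ_self ν₀))
      have h2 := finrank_span_eq_card hi
      have h1 : Submodule.span ℝ (Set.range ![vec (z ν₀), vec (z (ν₀ + 1))]) ≤
          Submodule.span ℝ {v | ∃ ν, ν₀ ≤ ν ∧ v = vec (z ν)} := by
        apply Submodule.span_mono
        rintro v ⟨i, rfl⟩
        fin_cases i
        · exact ⟨ν₀, le_rfl, rfl⟩
        · exact ⟨ν₀ + 1, by omega, rfl⟩
      have h3 := Submodule.finrank_mono h1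
      rw [h2, Fintype.card_fin] at h3
      exact h3

end Pool.Agent.Results.MP_a0fa86_nt.DimTwo
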